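import Pool.Agent.N554.HVZ.Def
import Pool.Agent.N554.HKS.Main

/-!
# The word `u0` is palindromic
-/

set_option autoImplicit false

namespace Pool.Agent.N519.HVZ.PAL0

open Pool.Agent.N554.HKS Pool.Agent.N554.HVZ

lemma d0_eq (n : ℕ) (hn : n ≠ 0) :
    d0 n = if n % 4 = 0 then 0 else if n % 4 = 3 then 1 else d0 (n / 4) := by
  obtain ⟨k, rfl⟩ := Nat.exists_eq_succ_of_ne_zero hn
  simp only [Nat.succ_eq_add_one]
  rw [d0]

lemma d0_b0 (i : ℕ) : d0 (4 * i) = 0 := by
  rcases Nat.eq_zero_or_pos i with rfl | hi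
  · rw [Nat.mul_zero, d0]
  · rw [d0_eq _ (by omega), if_pos (by omega)]

lemma d0_b1 (i : ℕ) : d0 (4 * i + 1) = d0 i := by
  rw [d0_eq _ (by omega), if_neg (by omega), if_neg (by omega)]
  congr 1
  omega

lemma d0_b2 (i : ℕ) : d0 (4 * i + 2) = d0 i := by
  rw [d0_eq _ (by omega), if_neg (by omega), if_neg (by omega)]
  congr 1
  omega

lemma d0_b3 (i : ℕ) : d0 (4 * i + 3) = 1 := by
  rw [d0_eq _ (by omega), if_neg (by omega), if_pos (by omega)]

lemma phi0_eq (x : Fin 2) : phi0 x = [0, x, x, 1] := by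
  fin_cases x <;> rfl

lemma seg_one {A : Type*} (u : ℕ → A) (i : ℕ) : seg u i 1 = [u i] := by
  simp [seg]

lemma ext_one {A B : Type*} (f : A → List B) (x : A) : ext f [x] = f x := by
  simp [ext]

lemma ext_phi0_seg (i n : ℕ) : ext phi0 (seg d0 i n) = seg d0 (4 * i) (4 * n) := by
  induction n with
  | zero => simp [seg, ext]
  | succ n ih =>
    have e : 4 * (n + 1) = 4 * n + 4 := by ring
    have e' : 4 * i + 4 * n = 4 * (i + n) := by ring
    rw [seg_append, ext_append, ih, e, seg_append d0 (4 * i) (4 * n) 4, seg_one, ext_one, phi0_eq,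
      e']
    congr 1
    have e2 : seg d0 (4 * (i + n)) 4 = [d0 (4 * (i + n)), d0 (4 * (i + n) + 1),
        d0 (4 * (i + n) + 2), d0 (4 * (i + n) + 3)] := by
      simp [seg, List.range_succ]
    rw [e2, d0_b0, d0_b1, d0_b2, d0_b3]

lemma mu0_list (x : Fin 2) : mu0 x = [(mu0 x).getD 0 0, (mu0 x).getD 1 0, (mu0 x).getD 2 0] := by
  fin_cases x <;> rfl

lemma ext_mu0_seg (i n : ℕ) : ext mu0 (seg d0 i n) = seg u0 (3 * i) (3 * n) := by
  induction n with
  | zero => simp [seg, ext]
  | succ n ih =>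
    have e : 3 * (n + 1) = 3 * n + 3 := by ring
    have e' : 3 * i + 3 * n = 3 * (i + n) := by ring
    rw [seg_append, ext_append, ih, e, seg_append u0 (3 * i) (3 * n) 3, seg_one, ext_one,
      mu0_list, e']
    congr 1
    have e2 : seg u0 (3 * (i + n)) 3 = [u0 (3 * (i + n)), u0 (3 * (i + n) + 1),
        u0 (3 * (i + n) + 2)] := by
      simp [seg, List.range_succ]
    rw [e2]
    unfold u0
    have h1 : 3 * (i + n) / 3 = i + n := by omega
    have h2 : 3 * (i + n) % 3 = 0 := by omega
    have h3 : (3 * (i + n) + 1) / 3 = i + n := by omega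
    have h4 : (3 * (i + n) + 1) % 3 = 1 := by omega
    have h5 : (3 * (i + n) + 2) / 3 = i + n := by omega
    have h6 : (3 * (i + n) + 2) % 3 = 2 := by omega
    rw [h1, h2, h3, h4, h5, h6]

/-- The words `phi0^m(01)`. -/
def P (m : ℕ) : List (Fin 2) := (ext phi0)^[m] [0, 1]

lemma P_succ (m : ℕ) : P (m + 1) = ext phi0 (P m) := by
  unfold P
  rw [Function.iterate_succ_apply']

lemma P_seg (m : ℕ) : P m = seg d0 (2 * 4 ^ m) (2 * 4 ^ m) := by
  induction m with
  | zero =>
    have h2 : d0 2 = 0 := by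
      have := d0_b2 0
      rw [Nat.mul_zero, Nat.zero_add] at this
      rw [this, d0]
    have h3 : d0 3 = 1 := by
      have := d0_b3 0
      rwa [Nat.mul_zero, Nat.zero_add] at this
    simp [P, seg, List.range_succ, h2, h3]
  | succ m ih =>
    rw [P_succ, ih, ext_phi0_seg]
    congr 1 <;> ring

/-- Reversal and exchange of the letters. -/
def E (s : List (Fin 2)) : List (Fin 2) := (s.map fun x => 1 - x).reverse

lemma E_append (s t : List (Fin 2)) : E (s ++ t) = E t ++ E s := by
  simp [E]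

lemma ext_phi0_E (s : List (Fin 2)) : ext phi0 (E s) = E (ext phi0 s) := by
  induction s with
  | nil => simp [E, ext]
  | cons x s ih =>
    have e : x :: s = [x] ++ s := rfl
    rw [e, E_append, ext_append, ext_append, E_append, ih]
    congr 1
    fin_cases x <;> decide

lemma ext_mu0_E (s : List (Fin 2)) : ext mu0 (E s) = (ext mu0 s).reverse := by
  induction s with
  | nil => simp [E, ext]
  | cons x s ih =>
    have e : x :: s = [x] ++ s := rfl
    rw [e, E_append, ext_append, ext_append, List.reverse_append, ih]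
    congr 1
    fin_cases x <;> decide

lemma E_P (m : ℕ) : E (P m) = P m := by
  induction m with
  | zero => decide
  | succ m ih => rw [P_succ, ← ext_phi0_E, ih]

lemma word_seg (m : ℕ) : ext mu0 (P m) = seg u0 (6 * 4 ^ m) (6 * 4 ^ m) := by
  rw [P_seg, ext_mu0_seg]
  congr 1 <;> ring

theorem PAL0_proof : PAL0 := by
  unfold PAL0
  refine Set.infinite_of_injective_forall_mem (f := fun m : ℕ => ext mu0 (P m)) ?_ ?_
  · intro m n h
    have h' := congrArg List.length h
    simp only [word_seg, seg_length] at h'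
    have h2 : 4 ^ m = 4 ^ n := by omega
    exact Nat.pow_right_injective (le_refl _ |>.trans (by norm_num : 2 ≤ 4)) h2
  · intro m
    refine ⟨⟨6 * 4 ^ m, ?_⟩, ?_⟩
    · rw [word_seg, seg_length]
    · rw [← ext_mu0_E, E_P]

end Pool.Agent.N519.HVZ.PAL0
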